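import Mathlib

/-!
# Extremal point-line configurations with no dense part in a projective image of a lattice section

We disprove the statement that a positive proportion of every extremal configuration of points and
lines (or of its dual) lies in a projective image of a lattice section of linear size.
The configurations are built from the boxes `{a + b √2 : |a|, |b| ≤ N}`.
-/

set_option autoImplicit false

namespace Pool.Agent.Results.MP_fad2aa_co.QuadraticGrids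

open Finset

/-- `l` is a line of the real plane. -/
def IsLine (l : Set (ℝ × ℝ)) : Prop :=
  ∃ a b c : ℝ, (a ≠ 0 ∨ b ≠ 0) ∧ l = {p : ℝ × ℝ | a * p.1 + b * p.2 = c}

open scoped Classical in
/-- The number of incidences between the points `P` and the lines `L`. -/
noncomputable def inc (P : Finset (ℝ × ℝ)) (L : Finset (Set (ℝ × ℝ))) : ℕ :=
  ((P ×ˢ L).filter (fun z => z.1 ∈ z.2)).card

/-- The projective map with matrix `A` sends the affine point `p` to the affine point `q`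
(in particular it does not send `p` to infinity). -/
def SendsTo (A : Matrix (Fin 3) (Fin 3) ℝ) (p q : ℝ × ℝ) : Prop :=
  A 2 0 * p.1 + A 2 1 * p.2 + A 2 2 ≠ 0 ∧
  q.1 = (A 0 0 * p.1 + A 0 1 * p.2 + A 0 2) / (A 2 0 * p.1 + A 2 1 * p.2 + A 2 2) ∧
  q.2 = (A 1 0 * p.1 + A 1 1 * p.2 + A 1 2) / (A 2 0 * p.1 + A 2 1 * p.2 + A 2 2)

/-- Some projective transformation sends the finite set `X` into a lattice section
`{1,…,a} × {1,…,b}` of size `a b ≤ S`. -/
def InLatticeSection (X : Finset (ℝ × ℝ)) (S : ℝ) : Prop :=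
  ∃ A : Matrix (Fin 3) (Fin 3) ℝ, A.det ≠ 0 ∧ ∃ a b : ℕ, ((a * b : ℕ) : ℝ) ≤ S ∧
    ∀ p ∈ X, ∃ i j : ℕ, 1 ≤ i ∧ i ≤ a ∧ 1 ≤ j ∧ j ≤ b ∧ SendsTo A p ((i : ℝ), (j : ℝ))

/-- The non-vertical line `y = s x - t`, whose dual point is `(s, t)`. -/
def nvLine (s t : ℝ) : Set (ℝ × ℝ) := {p | p.2 = s * p.1 - t}

/-- The statement asked about: for all positive constants `C₁, c₂, c₃` there are `c, C > 0` and `N₀`
such that in every configuration of `m ≥ N₀` points and `n ≥ N₀` lines with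
`c₂ √n ≤ m ≤ C₁ n²` and at least `c₃ m^(2/3) n^(2/3)` incidences, either at least `c m` of the points
lie in a projective preimage of a lattice section of size at most `C m`, or the same holds for
the dual points of at least `c n` non-vertical lines (with `C n`). -/
def LatticeStructure : Prop :=
  ∀ C₁ c₂ c₃ : ℝ, 0 < C₁ → 0 < c₂ → 0 < c₃ → ∃ c C : ℝ, 0 < c ∧ 0 < C ∧ ∃ N₀ : ℕ,
    ∀ m n : ℕ, N₀ ≤ m → N₀ ≤ n → c₂ * Real.sqrt n ≤ m → (m : ℝ) ≤ C₁ * (n : ℝ) ^ 2 →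
    ∀ (P : Finset (ℝ × ℝ)) (L : Finset (Set (ℝ × ℝ))), P.card = m → L.card = n →
      (∀ l ∈ L, IsLine l) →
      c₃ * (m : ℝ) ^ (2 / 3 : ℝ) * (n : ℝ) ^ (2 / 3 : ℝ) ≤ inc P L →
      (∃ P' : Finset (ℝ × ℝ), P' ⊆ P ∧ c * m ≤ P'.card ∧ InLatticeSection P' (C * m)) ∨
      (∃ D : Finset (ℝ × ℝ), (∀ d ∈ D, nvLine d.1 d.2 ∈ L) ∧ c * n ≤ D.card ∧
        InLatticeSection D (C * n))

/-! ### Four collinear points with irrational cross-ratio -/

theorem mobius_false (α β γ δ : ℝ) (hD : α * δ - β * γ ≠ 0) (x : Fin 4 → ℝ) (q : Fin 4 → ℚ)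
    (hw : ∀ i, γ * x i + δ ≠ 0)
    (hq : ∀ i, (q i : ℝ) = (α * x i + β) / (γ * x i + δ)) (s z : ℚ) (hs : x 1 - x 0 = s)
    (hz : x 3 - x 0 = z) (hs0 : s ≠ 0) (hz0 : z ≠ 0) (hsz : s ≠ z)
    (ht : Irrational (x 2 - x 0)) : False := by
  have key : ∀ i j, ((q i : ℝ) - q j) * ((γ * x i + δ) * (γ * x j + δ)) =
      (α * δ - β * γ) * (x i - x j) := by
    intro i j
    have hi := (eq_div_iff (hw i)).mp (hq i)
    have hj := (eq_div_iff (hw j)).mp (hq j)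
    linear_combination (γ * x j + δ) * hi - (γ * x i + δ) * hj
  set t := x 2 - x 0 with htdef
  have x1 : x 1 = x 0 + s := by linarith
  have x3 : x 3 = x 0 + z := by linarith
  have x2 : x 2 = x 0 + t := by rw [htdef]; ring
  have hneq : ∀ i j, x i ≠ x j → q i ≠ q j := by
    intro i j hij hqq
    have h := key i j
    rw [hqq, sub_self, zero_mul] at h
    rcases mul_eq_zero.mp h.symm with h | h
    · exact hD h
    · exact hij (by linarith)
  have sR : (s : ℝ) ≠ 0 := by exact_mod_cast hs0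
  have zR : (z : ℝ) ≠ 0 := by exact_mod_cast hz0
  have szR : (s : ℝ) ≠ z := by exact_mod_cast hsz
  have hts : t ≠ s := by
    intro h; rw [h] at ht; exact (Rat.not_irrational s) ht
  have htz : t ≠ z := by
    intro h; rw [h] at ht; exact (Rat.not_irrational z) ht
  have q30 : q 3 ≠ q 0 := hneq 3 0 (by rw [x3]; intro h; apply zR; linarith)
  have q12 : q 1 ≠ q 2 := hneq 1 2 (by rw [x1, x2]; intro h; apply hts; linarith)
  have e30 := key 3 0
  have e12 := key 1 2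
  have e32 := key 3 2
  have e10 := key 1 0
  set W : ℝ := (γ * x 0 + δ) * (γ * x 1 + δ) * (γ * x 2 + δ) * (γ * x 3 + δ) with hW
  have hW0 : W ≠ 0 := by
    rw [hW]; exact mul_ne_zero (mul_ne_zero (mul_ne_zero (hw 0) (hw 1)) (hw 2)) (hw 3)
  set A : ℚ := (q 3 - q 0) * (q 1 - q 2) with hA
  set B : ℚ := (q 3 - q 2) * (q 1 - q 0) with hB
  have hA0 : A ≠ 0 := mul_ne_zero (sub_ne_zero.mpr q30) (sub_ne_zero.mpr q12)
  have f1 : (A : ℝ) * W = (α * δ - β * γ) ^ 2 * ((x 3 - x 0) * (x 1 - x 2)) := by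
    rw [hA, hW]; push_cast
    linear_combination ((q 1 : ℝ) - q 2) * ((γ * x 1 + δ) * (γ * x 2 + δ)) * e30 +
      (α * δ - β * γ) * (x 3 - x 0) * e12
  have f2 : (B : ℝ) * W = (α * δ - β * γ) ^ 2 * ((x 3 - x 2) * (x 1 - x 0)) := by
    rw [hB, hW]; push_cast
    linear_combination ((q 1 : ℝ) - q 0) * ((γ * x 1 + δ) * (γ * x 0 + δ)) * e32 +
      (α * δ - β * γ) * (x 3 - x 2) * e10
  have f3 : (A : ℝ) * ((x 3 - x 2) * (x 1 - x 0)) = B * ((x 3 - x 0) * (x 1 - x 2)) := by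
    have hD2 : (α * δ - β * γ) ^ 2 ≠ 0 := pow_ne_zero 2 hD
    apply mul_left_cancel₀ hD2
    apply mul_left_cancel₀ hW0
    linear_combination (- (A : ℝ) * W) * f2 + (B : ℝ) * W * f1
  rw [x1, x2, x3] at f3
  have f4 : t * ((B * z - A * s : ℚ) : ℝ) = ((z * s * (B - A) : ℚ) : ℝ) := by
    push_cast
    linear_combination f3
  by_cases h0 : B * z - A * s = 0
  · rw [h0, Rat.cast_zero, mul_zero] at f4
    have f5 : z * s * (B - A) = 0 := by exact_mod_cast f4.symm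
    have f6 : B - A = 0 := by
      rcases mul_eq_zero.mp f5 with h | h
      · exact absurd h (mul_ne_zero hz0 hs0)
      · exact h
    have f7 : A * (z - s) = 0 := by
      have : B = A := by linarith
      rw [this] at h0
      linear_combination h0
    rcases mul_eq_zero.mp f7 with h | h
    · exact hA0 h
    · exact hsz (by linarith)
  · have h0R : ((B * z - A * s : ℚ) : ℝ) ≠ 0 := by exact_mod_cast h0
    have : t = ((z * s * (B - A) / (B * z - A * s) : ℚ) : ℝ) := by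
      rw [Rat.cast_div, eq_div_iff h0R]
      exact f4
    rw [this] at ht
    exact (Rat.not_irrational _) ht

theorem row_false (A : Matrix (Fin 3) (Fin 3) ℝ) (hdet : A.det ≠ 0) (y : ℝ) (x : Fin 4 → ℝ)
    (q r : Fin 4 → ℚ) (h : ∀ i, SendsTo A (x i, y) ((q i : ℝ), (r i : ℝ)))
    (s z : ℚ) (hs : x 1 - x 0 = s)
    (hz : x 3 - x 0 = z) (hs0 : s ≠ 0) (hz0 : z ≠ 0) (hsz : s ≠ z)
    (ht : Irrational (x 2 - x 0)) : False := by
  have hw : ∀ i, A 2 0 * x i + (A 2 1 * y + A 2 2) ≠ 0 := by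
    intro i
    have := (h i).1
    simp only at this
    rwa [add_assoc] at this
  have hq : ∀ i, (q i : ℝ) = (A 0 0 * x i + (A 0 1 * y + A 0 2)) /
      (A 2 0 * x i + (A 2 1 * y + A 2 2)) := by
    intro i
    have := (h i).2.1
    simp only at this
    rw [this, add_assoc, add_assoc]
  have hr : ∀ i, (r i : ℝ) = (A 1 0 * x i + (A 1 1 * y + A 1 2)) /
      (A 2 0 * x i + (A 2 1 * y + A 2 2)) := by
    intro i
    have := (h i).2.2
    simp only at this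
    rw [this, add_assoc, add_assoc]
  by_cases h1 : A 0 0 * (A 2 1 * y + A 2 2) - (A 0 1 * y + A 0 2) * A 2 0 = 0
  · by_cases h2 : A 1 0 * (A 2 1 * y + A 2 2) - (A 1 1 * y + A 1 2) * A 2 0 = 0
    · apply hdet
      have h3 : (A 2 0 * x 0 + (A 2 1 * y + A 2 2)) *
          (A 0 0 * (A 1 1 * y + A 1 2) - A 1 0 * (A 0 1 * y + A 0 2)) = 0 := by
        linear_combination (A 1 0 * x 0 + (A 1 1 * y + A 1 2)) * h1 -
          (A 0 0 * x 0 + (A 0 1 * y + A 0 2)) * h2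
      have h4 := (mul_eq_zero.mp h3).resolve_left (hw 0)
      rw [Matrix.det_fin_three]
      linear_combination A 1 1 * h1 - A 0 1 * h2 - A 2 1 * h4
    · exact mobius_false _ _ _ _ h2 x r hw hr s z hs hz hs0 hz0 hsz ht
  · exact mobius_false _ _ _ _ h1 x q hw hq s z hs hz hs0 hz0 hsz ht

/-! ### The grids -/

/-- The point `(a + b √2, c + d √2)`. -/
noncomputable def pt (v : (ℤ × ℤ) × (ℤ × ℤ)) : ℝ × ℝ :=
  ((v.1.1 : ℝ) + v.1.2 * Real.sqrt 2, (v.2.1 : ℝ) + v.2.2 * Real.sqrt 2)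

theorem sqrt2_inj {a b c d : ℤ} (h : (a : ℝ) + b * Real.sqrt 2 = c + d * Real.sqrt 2) :
    a = c ∧ b = d := by
  have hbd : b = d := by
    by_contra hne
    have h1 : ((b - d : ℤ) : ℝ) ≠ 0 := by
      have : b - d ≠ 0 := sub_ne_zero.mpr hne
      exact_mod_cast this
    have h2 : Real.sqrt 2 = (((c - a : ℤ) : ℚ) / ((b - d : ℤ) : ℚ) : ℚ) := by
      push_cast
      push_cast at h1
      rw [eq_div_iff h1]
      linear_combination h
    exact irrational_sqrt_two ⟨_, h2.symm⟩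
  refine ⟨?_, hbd⟩
  subst hbd
  have : (a : ℝ) = c := by linarith
  exact_mod_cast this

theorem pt_inj : Function.Injective pt := by
  rintro ⟨⟨a, b⟩, ⟨c, d⟩⟩ ⟨⟨a', b'⟩, ⟨c', d'⟩⟩ h
  simp only [pt, Prod.mk.injEq] at h
  obtain ⟨h1, h2⟩ := sqrt2_inj h.1
  obtain ⟨h3, h4⟩ := sqrt2_inj h.2
  rw [h1, h2, h3, h4]

/-- The box `[-N, N]²` of integer pairs. -/
noncomputable def box (N : ℕ) : Finset (ℤ × ℤ) := Icc (-(N : ℤ)) N ×ˢ Icc (-(N : ℤ)) N

theorem card_box (N : ℕ) : (box N).card = (2 * N + 1) * (2 * N + 1) := by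
  rw [box, card_product, Int.card_Icc]
  have : ((N : ℤ) + 1 - -(N : ℤ)).toNat = 2 * N + 1 := by omega
  rw [this]

open scoped Classical in
/-- The grid `B(N) × B(M)`. -/
noncomputable def grid (N M : ℕ) : Finset (ℝ × ℝ) := (box N ×ˢ box M).image pt

theorem card_grid (N M : ℕ) :
    (grid N M).card = ((2 * N + 1) * (2 * N + 1)) * ((2 * M + 1) * (2 * M + 1)) := by
  classical
  rw [grid, card_image_of_injective _ pt_inj, card_product, card_box, card_box]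

theorem irrational_diff (a b c d : ℤ) (h : b ≠ d) :
    Irrational (((a : ℝ) + b * Real.sqrt 2) - (c + d * Real.sqrt 2)) := by
  have h1 : ((a : ℝ) + b * Real.sqrt 2) - (c + d * Real.sqrt 2) =
      ((a - c : ℤ) : ℝ) + ((b - d : ℤ) : ℝ) * Real.sqrt 2 := by push_cast; ring
  rw [h1, irrational_intCast_add_iff, irrational_intCast_mul_iff]
  exact ⟨sub_ne_zero.mpr h, irrational_sqrt_two⟩

/-- A subset of the grid that lies in a projective preimage of a lattice section is small. -/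
theorem card_le_of_section (N M : ℕ) (Q : Finset (ℝ × ℝ)) (hQ : Q ⊆ grid N M) (S : ℝ)
    (hS : InLatticeSection Q S) :
    Q.card ≤ ((2 * M + 1) * (2 * M + 1)) * (2 * (2 * N + 1)) := by
  classical
  by_contra hlt
  push Not at hlt
  obtain ⟨A, hdet, na, nb, -, hA⟩ := hS
  set R : Finset ((ℤ × ℤ) × (ℤ × ℤ)) := (box N ×ˢ box M).filter (fun v => pt v ∈ Q) with hR
  have hcard : R.card = Q.card := by
    have : Q = R.image pt := by
      ext p
      constructor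
      · intro hp
        obtain ⟨v, hv, rfl⟩ := mem_image.mp (hQ hp)
        exact mem_image.mpr ⟨v, mem_filter.mpr ⟨hv, hp⟩, rfl⟩
      · intro hp
        obtain ⟨v, hv, rfl⟩ := mem_image.mp hp
        exact (mem_filter.mp hv).2
    rw [this, card_image_of_injective _ pt_inj]
  -- first pigeonhole: a row
  have h1 : (box M).card * (2 * (2 * N + 1)) < R.card := by
    rw [card_box, hcard]; exact hlt
  obtain ⟨cd, hcd, h2⟩ := exists_lt_card_fiber_of_mul_lt_card_of_maps_to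
    (s := R) (t := box M) (f := fun v => v.2)
    (fun v hv => (mem_product.mp (mem_filter.mp hv).1).2) h1
  set R1 := R.filter (fun v => v.2 = cd) with hR1
  -- second pigeonhole: three points with the same irrational part
  have h3 : (Icc (-(N : ℤ)) N).card * 2 < R1.card := by
    rw [Int.card_Icc]
    have : ((N : ℤ) + 1 - -(N : ℤ)).toNat = 2 * N + 1 := by omega
    rw [this]; omega
  obtain ⟨b, hb, h4⟩ := exists_lt_card_fiber_of_mul_lt_card_of_maps_to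
    (s := R1) (t := Icc (-(N : ℤ)) N) (f := fun v => v.1.2)
    (fun v hv => by
      have h5 := (mem_product.mp (mem_filter.mp (mem_filter.mp hv).1).1).1
      exact (mem_product.mp h5).2) h3
  set R2 := R1.filter (fun v => v.1.2 = b) with hR2
  have h5 : R2.card ≤ 2 * N + 1 := by
    have : R2.card ≤ (Icc (-(N : ℤ)) N).card := by
      apply card_le_card_of_injOn (fun v => v.1.1)
      · intro v hv
        have h6 := (mem_product.mp (mem_filter.mp (mem_filter.mp (mem_filter.mp hv).1).1).1).1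
        exact (mem_product.mp h6).1
      · rintro ⟨⟨a1, b1⟩, w1⟩ hv1 ⟨⟨a2, b2⟩, w2⟩ hv2 h
        have e1 := (mem_filter.mp hv1).2
        have e2 := (mem_filter.mp hv2).2
        have e3 := (mem_filter.mp (mem_filter.mp hv1).1).2
        have e4 := (mem_filter.mp (mem_filter.mp hv2).1).2
        simp only at e1 e2 e3 e4 h
        rw [h, e1, e2, e3, e4]
    rw [Int.card_Icc] at this
    omega
  -- a point outside
  have h6 : ∃ v ∈ R1, v.1.2 ≠ b := by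
    by_contra hno
    push Not at hno
    have : R2 = R1 := filter_true_of_mem hno
    rw [this] at h5
    omega
  obtain ⟨v3, hv3, hv3b⟩ := h6
  obtain ⟨v0, hv0, v1, hv1, v4, hv4, n01, n04, n14⟩ := two_lt_card.mp h4
  -- the image data
  have key : ∀ v ∈ R1, ∃ i j : ℚ, SendsTo A ((v.1.1 : ℝ) + v.1.2 * Real.sqrt 2,
      (cd.1 : ℝ) + cd.2 * Real.sqrt 2) ((i : ℝ), (j : ℝ)) := by
    intro v hv
    have e1 := (mem_filter.mp hv).2
    have e2 := (mem_filter.mp (mem_filter.mp hv).1).2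
    obtain ⟨i, j, -, -, -, -, h⟩ := hA _ e2
    refine ⟨i, j, ?_⟩
    simp only [pt] at h
    rw [← e1]
    push_cast
    exact h
  obtain ⟨i0, j0, k0⟩ := key v0 (mem_filter.mp hv0).1
  obtain ⟨i1, j1, k1⟩ := key v1 (mem_filter.mp hv1).1
  obtain ⟨i2, j2, k2⟩ := key v3 hv3
  obtain ⟨i3, j3, k3⟩ := key v4 (mem_filter.mp hv4).1
  have b0 : v0.1.2 = b := (mem_filter.mp hv0).2
  have b1 : v1.1.2 = b := (mem_filter.mp hv1).2
  have b4 : v4.1.2 = b := (mem_filter.mp hv4).2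
  have c0 : v0.2 = cd := (mem_filter.mp (mem_filter.mp hv0).1).2
  have c1 : v1.2 = cd := (mem_filter.mp (mem_filter.mp hv1).1).2
  have c4 : v4.2 = cd := (mem_filter.mp (mem_filter.mp hv4).1).2
  have m01 : v0.1.1 ≠ v1.1.1 := by
    intro h; apply n01; exact Prod.ext (Prod.ext h (b0.trans b1.symm)) (c0.trans c1.symm)
  have m04 : v0.1.1 ≠ v4.1.1 := by
    intro h; apply n04; exact Prod.ext (Prod.ext h (b0.trans b4.symm)) (c0.trans c4.symm)
  have m14 : v1.1.1 ≠ v4.1.1 := by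
    intro h; apply n14; exact Prod.ext (Prod.ext h (b1.trans b4.symm)) (c1.trans c4.symm)
  refine row_false A hdet ((cd.1 : ℝ) + cd.2 * Real.sqrt 2)
    ![(v0.1.1 : ℝ) + v0.1.2 * Real.sqrt 2, (v1.1.1 : ℝ) + v1.1.2 * Real.sqrt 2,
      (v3.1.1 : ℝ) + v3.1.2 * Real.sqrt 2, (v4.1.1 : ℝ) + v4.1.2 * Real.sqrt 2]
    ![i0, i1, i2, i3] ![j0, j1, j2, j3] ?_ ((v1.1.1 - v0.1.1 : ℤ) : ℚ)
    ((v4.1.1 - v0.1.1 : ℤ) : ℚ) ?_ ?_ ?_ ?_ ?_ ?_
  · intro i
    fin_cases i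
    · exact k0
    · exact k1
    · exact k2
    · exact k3
  · simp only [Matrix.cons_val_one, Matrix.cons_val_zero]
    rw [b0, b1]; push_cast; ring
  · simp only [Matrix.cons_val_zero]
    show (v4.1.1 : ℝ) + v4.1.2 * Real.sqrt 2 - ((v0.1.1 : ℝ) + v0.1.2 * Real.sqrt 2) = _
    rw [b0, b4]; push_cast; ring
  · have : v1.1.1 - v0.1.1 ≠ 0 := sub_ne_zero.mpr (Ne.symm m01)
    exact_mod_cast this
  · have : v4.1.1 - v0.1.1 ≠ 0 := sub_ne_zero.mpr (Ne.symm m04)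
    exact_mod_cast this
  · intro h
    have h' : v1.1.1 - v0.1.1 = v4.1.1 - v0.1.1 := by exact_mod_cast h
    exact m14 (by linarith)
  · show Irrational ((v3.1.1 : ℝ) + v3.1.2 * Real.sqrt 2 - ((v0.1.1 : ℝ) + v0.1.2 * Real.sqrt 2))
    exact irrational_diff _ _ _ _ (by rw [b0]; exact hv3b)

theorem nvLine_inj {s t s' t' : ℝ} (h : nvLine s t = nvLine s' t') : s = s' ∧ t = t' := by
  have h0 : ((0 : ℝ), -t) ∈ nvLine s t := by simp [nvLine]
  have h1 : ((1 : ℝ), s - t) ∈ nvLine s t := by simp [nvLine]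
  rw [h] at h0 h1
  simp only [nvLine, Set.mem_ofPred_eq] at h0 h1
  constructor <;> linarith

theorem isLine_nvLine (s t : ℝ) : IsLine (nvLine s t) := by
  refine ⟨s, -1, t, Or.inr (by norm_num), ?_⟩
  ext p
  simp only [nvLine, Set.mem_ofPred_eq]
  constructor <;> intro h <;> linarith

open scoped Classical in
/-- The lines `y = s x - t` with `(s, t)` in the grid `B(N) × B(N²)`. -/
noncomputable def lines (N : ℕ) : Finset (Set (ℝ × ℝ)) :=
  (grid N (N ^ 2)).image (fun d => nvLine d.1 d.2)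

theorem card_lines (N : ℕ) : (lines N).card =
    ((2 * N + 1) * (2 * N + 1)) * ((2 * N ^ 2 + 1) * (2 * N ^ 2 + 1)) := by
  classical
  rw [lines, card_image_of_injective, card_grid]
  intro d d' h
  obtain ⟨h1, h2⟩ := nvLine_inj h
  exact Prod.ext h1 h2

/-- Every line carries `(2N+1)²` points of the grid `B(N) × B(4N²)`. -/
theorem inc_ge (N : ℕ) : ((2 * N + 1) * (2 * N + 1)) * ((2 * N ^ 2 + 1) * (2 * N ^ 2 + 1)) *
    ((2 * N + 1) * (2 * N + 1)) ≤ inc (grid N (4 * N ^ 2)) (lines N) := by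
  classical
  have h : ((box N ×ˢ box (N ^ 2)) ×ˢ box N).card =
      ((2 * N + 1) * (2 * N + 1)) * ((2 * N ^ 2 + 1) * (2 * N ^ 2 + 1)) *
      ((2 * N + 1) * (2 * N + 1)) := by
    rw [card_product, card_product, card_box, card_box]
  rw [← h, inc]
  refine card_le_card_of_injOn (fun v : (((ℤ × ℤ) × (ℤ × ℤ)) × (ℤ × ℤ)) =>
    (pt (v.2, (v.1.1.1 * v.2.1 + 2 * v.1.1.2 * v.2.2 - v.1.2.1,
      v.1.1.1 * v.2.2 + v.1.1.2 * v.2.1 - v.1.2.2)), nvLine (pt v.1).1 (pt v.1).2)) ?_ ?_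
  · rintro ⟨⟨⟨a, b⟩, ⟨c, d⟩⟩, ⟨e, f⟩⟩ hv
    simp only [coe_product, Set.mem_prod, mem_coe, box, mem_Icc] at hv
    obtain ⟨⟨⟨⟨ha1, ha2⟩, ⟨hb1, hb2⟩⟩, ⟨⟨hc1, hc2⟩, ⟨hd1, hd2⟩⟩⟩, ⟨⟨he1, he2⟩, ⟨hf1, hf2⟩⟩⟩ := hv
    have habs : ∀ u v : ℤ, -(N : ℤ) ≤ u → u ≤ N → -(N : ℤ) ≤ v → v ≤ N →
        -((N : ℤ) ^ 2) ≤ u * v ∧ u * v ≤ (N : ℤ) ^ 2 := by
      intro u v h1 h2 h3 h4
      constructor <;> nlinarith
    obtain ⟨p1, p2⟩ := habs a e ha1 ha2 he1 he2
    obtain ⟨p3, p4⟩ := habs b f hb1 hb2 hf1 hf2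
    obtain ⟨p5, p6⟩ := habs a f ha1 ha2 hf1 hf2
    obtain ⟨p7, p8⟩ := habs b e hb1 hb2 he1 he2
    push_cast at hc1 hc2 hd1 hd2
    simp only [coe_filter, Set.mem_ofPred_eq, mem_product]
    refine ⟨⟨?_, ?_⟩, ?_⟩
    · refine mem_image.mpr ⟨_, ?_, rfl⟩
      simp only [box, mem_product, mem_Icc]
      push_cast
      refine ⟨⟨⟨he1, he2⟩, ⟨hf1, hf2⟩⟩, ⟨⟨?_, ?_⟩, ⟨?_, ?_⟩⟩⟩ <;> nlinarith
    · refine mem_image.mpr ⟨pt ((a, b), (c, d)), ?_, rfl⟩
      refine mem_image.mpr ⟨_, ?_, rfl⟩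
      simp only [box, mem_product, mem_Icc]
      push_cast
      exact ⟨⟨⟨ha1, ha2⟩, ⟨hb1, hb2⟩⟩, ⟨⟨hc1, hc2⟩, ⟨hd1, hd2⟩⟩⟩
    · have h2 : Real.sqrt 2 * Real.sqrt 2 = 2 := Real.mul_self_sqrt (by norm_num)
      simp only [nvLine, pt, Set.mem_ofPred_eq]
      push_cast
      linear_combination (-(b : ℝ) * f) * h2
  · intro v hv w hw hvw
    simp only [Prod.mk.injEq] at hvw
    obtain ⟨h1, h2⟩ := hvw
    have h3 := pt_inj h1
    simp only [Prod.mk.injEq] at h3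
    obtain ⟨h4, h5⟩ := nvLine_inj h2
    have h6 : v.1 = w.1 := pt_inj (Prod.ext h4 h5)
    exact Prod.ext h6 h3.1

theorem rpow_bound (m n K : ℝ) (hm : 0 ≤ m) (hn : 0 ≤ n) (hK : 0 ≤ K)
    (h : (m * n) ^ 2 ≤ K ^ 3) : m ^ (2 / 3 : ℝ) * n ^ (2 / 3 : ℝ) ≤ K := by
  rw [← Real.mul_rpow hm hn]
  have h1 : (m * n) ^ (2 / 3 : ℝ) = ((m * n) ^ 2) ^ (1 / 3 : ℝ) := by
    rw [← Real.rpow_natCast, ← Real.rpow_mul (mul_nonneg hm hn)]
    norm_num
  have h2 : K = (K ^ 3) ^ (1 / 3 : ℝ) := by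
    rw [← Real.rpow_natCast, ← Real.rpow_mul hK]
    norm_num
  rw [h1, h2]
  exact Real.rpow_le_rpow (by positivity) h (by norm_num)

/-- The statement `LatticeStructure` is false. -/
theorem result : ¬ LatticeStructure := by
  intro H
  obtain ⟨c, C, hc, hC, N₀, H⟩ := H 16 1 (1 / 16) (by norm_num) (by norm_num) (by norm_num)
  obtain ⟨K, hK⟩ := exists_nat_gt (2 / c)
  set N : ℕ := max N₀ (K + 1) with hN
  have hN0 : N₀ ≤ N := le_max_left _ _
  have hNK : K + 1 ≤ N := le_max_right _ _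
  have hN1 : 1 ≤ N := by omega
  set m : ℕ := ((2 * N + 1) * (2 * N + 1)) * ((2 * (4 * N ^ 2) + 1) * (2 * (4 * N ^ 2) + 1)) with hm
  set n : ℕ := ((2 * N + 1) * (2 * N + 1)) * ((2 * N ^ 2 + 1) * (2 * N ^ 2 + 1)) with hn
  have hNn : N ≤ n := by
    rw [hn]
    calc N ≤ (2 * N + 1) := by omega
      _ = (2 * N + 1) * 1 := by ring
      _ ≤ (2 * N + 1) * ((2 * N + 1) * ((2 * N ^ 2 + 1) * (2 * N ^ 2 + 1))) :=
        Nat.mul_le_mul_left _ (Nat.one_le_iff_ne_zero.mpr (by positivity))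
      _ = _ := by ring
  have hnm : n ≤ m := by
    rw [hn, hm]
    apply Nat.mul_le_mul_left
    apply Nat.mul_le_mul <;> nlinarith [Nat.zero_le (N ^ 2)]
  have hmn : m ≤ 16 * n := by
    rw [hn, hm]
    have h1 : (2 * (4 * N ^ 2) + 1) ≤ 4 * (2 * N ^ 2 + 1) := by nlinarith [Nat.zero_le (N ^ 2)]
    calc _ ≤ ((2 * N + 1) * (2 * N + 1)) * ((4 * (2 * N ^ 2 + 1)) * (4 * (2 * N ^ 2 + 1))) :=
          Nat.mul_le_mul_left _ (Nat.mul_le_mul h1 h1)
      _ = _ := by ring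
  have hn1 : 1 ≤ n := le_trans hN1 hNn
  have hn6 : n ≤ ((2 * N + 1) ^ 2) ^ 3 := by
    rw [hn]
    have h1 : 2 * N ^ 2 + 1 ≤ (2 * N + 1) ^ 2 := by nlinarith [Nat.zero_le (N ^ 2)]
    calc _ ≤ ((2 * N + 1) * (2 * N + 1)) * ((2 * N + 1) ^ 2 * (2 * N + 1) ^ 2) :=
          Nat.mul_le_mul_left _ (Nat.mul_le_mul h1 h1)
      _ = _ := by ring
  have nR : (1 : ℝ) ≤ n := by exact_mod_cast hn1
  have nmR : (n : ℝ) ≤ m := by exact_mod_cast hnm
  have mnR : (m : ℝ) ≤ 16 * n := by exact_mod_cast hmn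
  have n6R : (n : ℝ) ≤ (((2 * N + 1 : ℕ) : ℝ) ^ 2) ^ 3 := by exact_mod_cast hn6
  have hcN : 2 < c * ((2 * N + 1 : ℕ) : ℝ) := by
    have h1 : (K : ℝ) ≤ ((2 * N + 1 : ℕ) : ℝ) := by exact_mod_cast (by omega : K ≤ 2 * N + 1)
    have h2 : 2 / c < ((2 * N + 1 : ℕ) : ℝ) := lt_of_lt_of_le hK h1
    rw [div_lt_iff₀ hc] at h2
    linarith
  have hinc : (1 / 16 : ℝ) * (m : ℝ) ^ (2 / 3 : ℝ) * (n : ℝ) ^ (2 / 3 : ℝ) ≤
      inc (grid N (4 * N ^ 2)) (lines N) := by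
    have h1 : (m : ℝ) ^ (2 / 3 : ℝ) * (n : ℝ) ^ (2 / 3 : ℝ) ≤
        16 * (n * ((2 * N + 1 : ℕ) : ℝ) ^ 2) := by
      apply rpow_bound _ _ _ (by positivity) (by positivity) (by positivity)
      calc ((m : ℝ) * n) ^ 2 ≤ (16 * n * n) ^ 2 := by gcongr
        _ = 256 * ((n : ℝ) ^ 3 * n) := by ring
        _ ≤ 256 * ((n : ℝ) ^ 3 * (((2 * N + 1 : ℕ) : ℝ) ^ 2) ^ 3) := by gcongr
        _ ≤ 4096 * ((n : ℝ) ^ 3 * (((2 * N + 1 : ℕ) : ℝ) ^ 2) ^ 3) := by
          have : 0 ≤ ((n : ℝ) ^ 3 * (((2 * N + 1 : ℕ) : ℝ) ^ 2) ^ 3) := by positivity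
          linarith
        _ = _ := by ring
    have h2 : (n : ℝ) * ((2 * N + 1 : ℕ) : ℝ) ^ 2 ≤ inc (grid N (4 * N ^ 2)) (lines N) := by
      have := inc_ge N
      rw [← hn] at this
      calc (n : ℝ) * ((2 * N + 1 : ℕ) : ℝ) ^ 2 = ((n * ((2 * N + 1) * (2 * N + 1)) : ℕ) : ℝ) := by
            push_cast; ring
        _ ≤ _ := by exact_mod_cast this
    linarith
  have hsq : (1 : ℝ) * Real.sqrt n ≤ m := by
    rw [one_mul]
    have : Real.sqrt n ≤ n := by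
      rw [Real.sqrt_le_left (by linarith)]
      nlinarith
    linarith
  have hup : (m : ℝ) ≤ 16 * (n : ℝ) ^ 2 := by nlinarith
  rcases H m n (le_trans hN0 (le_trans hNn hnm)) (le_trans hN0 hNn) hsq hup
    (grid N (4 * N ^ 2)) (lines N) (card_grid _ _) (card_lines _)
    (by
      classical
      intro l hl
      obtain ⟨d, -, rfl⟩ := mem_image.mp hl
      exact isLine_nvLine _ _) hinc with ⟨P', hP', hc1, hsec⟩ | ⟨D, hD, hc1, hsec⟩
  · have h1 := card_le_of_section N (4 * N ^ 2) P' hP' _ hsec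
    have h2 : (P'.card : ℝ) ≤ (((2 * (4 * N ^ 2) + 1) * (2 * (4 * N ^ 2) + 1) : ℕ) : ℝ) *
        (2 * ((2 * N + 1 : ℕ) : ℝ)) := by exact_mod_cast h1
    have h3 : (m : ℝ) = ((2 * N + 1 : ℕ) : ℝ) * (((2 * N + 1 : ℕ) : ℝ) *
        (((2 * (4 * N ^ 2) + 1) * (2 * (4 * N ^ 2) + 1) : ℕ) : ℝ)) := by
      rw [hm]; push_cast; ring
    have h4 : 0 < ((2 * N + 1 : ℕ) : ℝ) *
        (((2 * (4 * N ^ 2) + 1) * (2 * (4 * N ^ 2) + 1) : ℕ) : ℝ) := by positivity
    have h5 := mul_lt_mul_of_pos_right hcN h4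
    rw [h3] at hc1
    nlinarith
  · have hD' : D ⊆ grid N (N ^ 2) := by
      classical
      intro d hd
      obtain ⟨e, he, hed⟩ := mem_image.mp (hD d hd)
      obtain ⟨e1, e2⟩ := nvLine_inj hed
      rwa [show d = e from (Prod.ext e1 e2).symm]
    have h1 := card_le_of_section N (N ^ 2) D hD' _ hsec
    have h2 : (D.card : ℝ) ≤ (((2 * N ^ 2 + 1) * (2 * N ^ 2 + 1) : ℕ) : ℝ) *
        (2 * ((2 * N + 1 : ℕ) : ℝ)) := by exact_mod_cast h1
    have h3 : (n : ℝ) = ((2 * N + 1 : ℕ) : ℝ) * (((2 * N + 1 : ℕ) : ℝ) *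
        (((2 * N ^ 2 + 1) * (2 * N ^ 2 + 1) : ℕ) : ℝ)) := by
      rw [hn]; push_cast; ring
    have h4 : 0 < ((2 * N + 1 : ℕ) : ℝ) *
        (((2 * N ^ 2 + 1) * (2 * N ^ 2 + 1) : ℕ) : ℝ) := by positivity
    have h5 := mul_lt_mul_of_pos_right hcN h4
    rw [h3] at hc1
    nlinarith

end Pool.Agent.Results.MP_fad2aa_co.QuadraticGrids
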